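import Pool.Agent.R284.RC.Stm

/-! Project RC (MP_ce24da_an), piece BR3. -/

set_option autoImplicit false
open MeasureTheory Set Filter Topology
open scoped ENNReal NNReal

namespace Pool.Agent.Helper348.RC

open Pool.Agent.R284.RC

theorem br3_proof : S_br3 := by
  intro n q hq K hK ρ hρ hρK hI
  set D : ℝ≥0∞ := Metric.ediam K + 1 with hD
  have hDt : D ≠ ⊤ := ENNReal.add_ne_top.2 ⟨hK.isBounded.ediam_ne_top, ENNReal.one_ne_top⟩
  have hpos : 0 < D ^ (-q) := by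
    rw [ENNReal.rpow_neg, ENNReal.inv_pos]
    exact ENNReal.rpow_ne_top_of_nonneg hq.le hDt
  have hlow : ∀ μ : Measure (E n), μ Set.univ = 1 → μ Kᶜ = 0 →
      D ^ (-q) ≤ ∫⁻ x, ∫⁻ y, (edist x y) ^ (-q) ∂μ ∂μ := by
    intro μ h1 h2
    have hae : ∀ᵐ x ∂μ, x ∈ K := by
      rw [ae_iff]
      exact h2
    calc D ^ (-q) = ∫⁻ _, D ^ (-q) ∂μ := by rw [lintegral_const, h1, mul_one]
      _ ≤ ∫⁻ x, ∫⁻ y, (edist x y) ^ (-q) ∂μ ∂μ := by
          apply lintegral_mono_ae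
          filter_upwards [hae] with x hx
          calc D ^ (-q) = ∫⁻ _, D ^ (-q) ∂μ := by rw [lintegral_const, h1, mul_one]
            _ ≤ ∫⁻ y, (edist x y) ^ (-q) ∂μ := by
                apply lintegral_mono_ae
                filter_upwards [hae] with y hy
                rw [ENNReal.rpow_neg, ENNReal.rpow_neg, ENNReal.inv_le_inv]
                apply ENNReal.rpow_le_rpow _ hq.le
                exact (Metric.edist_le_ediam_of_mem hx hy).trans le_self_add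
  have hIq : Iq q ρ = ∫⁻ x, ∫⁻ y, (edist x y) ^ (-q) ∂ρ ∂ρ := rfl
  have hIpos : 0 < (Iq q ρ).toReal := by
    apply ENNReal.toReal_pos _ hI.ne
    exact (hpos.trans_le (hlow ρ measure_univ hρK)).ne'
  set J : ℝ≥0∞ := ⨅ (μ : Measure (E n)) (_ : μ Set.univ = 1 ∧ μ Kᶜ = 0),
          ∫⁻ x, ∫⁻ y, (edist x y) ^ (-q) ∂μ ∂μ with hJ
  have hcap : cap q K = (J ^ (-1 / q)).toReal := by
    rw [cap, if_neg hq.ne']
  have hJ1 : D ^ (-q) ≤ J := le_iInf fun μ => le_iInf fun h => hlow μ h.1 h.2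
  have hJ2 : J ≤ Iq q ρ := iInf₂_le ρ ⟨measure_univ, hρK⟩
  have hJ0 : J ≠ 0 := (hpos.trans_le hJ1).ne'
  have hJt : J ≠ ⊤ := (hJ2.trans_lt hI).ne
  have hJr0 : J ^ (-1 / q) ≠ ⊤ := by
    rw [show (-1 / q : ℝ) = -(1 / q) by ring, ENNReal.rpow_neg, Ne, ENNReal.inv_eq_top]
    intro h
    rw [ENNReal.rpow_eq_zero_iff] at h
    rcases h with h | h
    · exact hJ0 h.1
    · exact hJt h.1
  have hle : (Iq q ρ) ^ (-1 / q) ≤ J ^ (-1 / q) := by
    rw [show (-1 / q : ℝ) = -(1 / q) by ring, ENNReal.rpow_neg, ENNReal.rpow_neg,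
      ENNReal.inv_le_inv]
    exact ENNReal.rpow_le_rpow hJ2 (by positivity)
  have hfin : (Iq q ρ).toReal ^ (-1 / q) ≤ cap q K := by
    rw [hcap, ENNReal.toReal_rpow]
    exact ENNReal.toReal_mono hJr0 hle
  exact ⟨hIpos, lt_of_lt_of_le (Real.rpow_pos_of_pos hIpos _) hfin, hfin⟩

end Pool.Agent.Helper348.RC
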