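import Pool.Agent.R284.RC.Stm

/-! Project RC (MP_ce24da_an), piece JENS. -/

set_option autoImplicit false
open MeasureTheory Set Filter Topology
open scoped ENNReal NNReal

namespace Pool.Agent.Helper348.RC

open Pool.Agent.R284.RC

lemma Iq_prod {n : ℕ} (q : ℝ) (ρ : Measure (E n)) [IsProbabilityMeasure ρ] :
    Iq q ρ = ∫⁻ z : E n × E n, (edist z.1 z.2) ^ (-q) ∂(ρ.prod ρ) := by
  rw [lintegral_prod]
  · rfl
  · exact (measurable_edist.pow_const _).aemeasurable

lemma Iq_ne_top {n : ℕ} {q : ℝ} {ρ : Measure (E n)} [IsProbabilityMeasure ρ] (h : BP q ρ) :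
    Iq q ρ ≠ ⊤ := by
  obtain ⟨B, hB⟩ := h
  have : Iq q ρ ≤ B := by
    calc Iq q ρ ≤ ∫⁻ _, (B : ℝ≥0∞) ∂ρ := lintegral_mono hB
      _ = B := by rw [lintegral_const, measure_univ, mul_one]
  exact (this.trans_lt ENNReal.coe_lt_top).ne

theorem jens_proof (hint : S_int) : S_jens := by
  intro n p q hp hpq ρ hρ hBS hBP
  have hq : 0 < q := by linarith
  obtain ⟨h1, -, -⟩ := hint n p q hp hpq ρ ρ inferInstance inferInstance hBP hBS hBS
  have hEn : En p ρ ρ = ∫ z : E n × E n, kr p z.1 z.2 ∂(ρ.prod ρ) := by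
    rw [integral_prod _ h1]
    rfl
  have hIt := Iq_ne_top hBP
  rcases hp.eq_or_lt with rfl | hp0
  · -- logarithmic case
    simp only [Phi, if_true]
    have hk : ∀ z : E n × E n, kr 0 z.1 z.2 = -Real.log (dist z.1 z.2) := fun z => by simp [kr]
    have hpt : ∀ z : E n × E n, ENNReal.ofReal (Real.exp (q * kr 0 z.1 z.2)) ≤
        (edist z.1 z.2) ^ (-q) := by
      intro z
      rcases eq_or_ne z.1 z.2 with h | h
      · rw [h, edist_self, ENNReal.zero_rpow_of_neg (by linarith)]
        exact le_top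
      · have hd : 0 < dist z.1 z.2 := dist_pos.2 h
        rw [hk, edist_dist, ENNReal.ofReal_rpow_of_pos hd]
        apply ENNReal.ofReal_le_ofReal
        rw [Real.rpow_def_of_pos hd]
        apply le_of_eq
        congr 1
        ring
    have hmeas : Measurable (fun z : E n × E n => Real.exp (q * kr 0 z.1 z.2)) := by
      have : (fun z : E n × E n => Real.exp (q * kr 0 z.1 z.2)) =
          fun z : E n × E n => Real.exp (q * -Real.log (dist z.1 z.2)) := by
        funext z
        rw [hk]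
      rw [this]
      exact Real.measurable_exp.comp (((Real.measurable_log.comp measurable_dist).neg).const_mul q)
    have hle : ∫⁻ z : E n × E n, ENNReal.ofReal (Real.exp (q * kr 0 z.1 z.2)) ∂(ρ.prod ρ) ≤
        Iq q ρ := by
      rw [Iq_prod]
      exact lintegral_mono hpt
    have hgi : Integrable (fun z : E n × E n => Real.exp (q * kr 0 z.1 z.2)) (ρ.prod ρ) := by
      refine ⟨hmeas.aestronglyMeasurable, ?_⟩
      rw [hasFiniteIntegral_iff_ofReal (ae_of_all _ fun z => (Real.exp_pos _).le)]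
      exact hle.trans_lt (lt_top_iff_ne_top.2 hIt)
    have hJ := (convexOn_exp).map_integral_le (μ := ρ.prod ρ)
      (f := fun z : E n × E n => q * kr 0 z.1 z.2) Real.continuous_exp.continuousOn isClosed_univ
      (ae_of_all _ fun z => mem_univ _) (h1.const_mul q) hgi
    have h3 : ∫ z : E n × E n, Real.exp (q * kr 0 z.1 z.2) ∂(ρ.prod ρ) ≤ (Iq q ρ).toReal := by
      rw [integral_eq_lintegral_of_nonneg_ae (ae_of_all _ fun z => (Real.exp_pos _).le)
        hmeas.aestronglyMeasurable]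
      exact ENNReal.toReal_mono hIt hle
    rw [integral_const_mul, ← hEn] at hJ
    have h4 : Real.exp (q * En 0 ρ ρ) ≤ (Iq q ρ).toReal := hJ.trans h3
    have h5 := Real.rpow_le_rpow (Real.exp_pos _).le h4 (z := 1 / q) (by positivity)
    rw [← Real.exp_mul] at h5
    have h6 : q * En 0 ρ ρ * (1 / q) = En 0 ρ ρ := by field_simp
    rw [h6] at h5
    exact h5
  · -- Riesz case
    simp only [Phi, if_neg hp0.ne']
    set f : E n × E n → ℝ := fun z => (dist z.1 z.2)⁻¹ with hf
    have hf0 : ∀ z, 0 ≤ f z := fun z => by rw [hf]; positivity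
    have hfm : Measurable f := measurable_dist.inv
    have hk : ∀ z : E n × E n, kr p z.1 z.2 = f z ^ p := by
      intro z
      simp only [kr, if_neg hp0.ne', hf]
      rw [Real.rpow_neg dist_nonneg, Real.inv_rpow dist_nonneg]
    have hen : ∀ (s : ℝ) (hs : 0 < s) (z : E n × E n), ‖f z‖ₑ ^ s = ENNReal.ofReal (f z ^ s) := by
      intro s hs z
      rw [Real.enorm_of_nonneg (hf0 z), ENNReal.ofReal_rpow_of_nonneg (hf0 z) hs.le]
    have hpt : ∀ z : E n × E n, ‖f z‖ₑ ^ q ≤ (edist z.1 z.2) ^ (-q) := by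
      intro z
      rcases eq_or_ne z.1 z.2 with h | h
      · rw [h, edist_self, ENNReal.zero_rpow_of_neg (by linarith)]
        exact le_top
      · have hd : 0 < dist z.1 z.2 := dist_pos.2 h
        rw [hen q hq z, edist_dist, ENNReal.ofReal_rpow_of_pos hd, hf]
        apply ENNReal.ofReal_le_ofReal
        rw [Real.rpow_neg dist_nonneg, Real.inv_rpow dist_nonneg]
    have hq' : ∫⁻ z, ‖f z‖ₑ ^ q ∂(ρ.prod ρ) ≤ Iq q ρ := by
      rw [Iq_prod]
      exact lintegral_mono hpt
    have hp' : ∫⁻ z, ‖f z‖ₑ ^ p ∂(ρ.prod ρ) = ENNReal.ofReal (En p ρ ρ) := by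
      rw [hEn, ofReal_integral_eq_lintegral_ofReal h1
        (ae_of_all _ fun z => by
          show 0 ≤ kr p z.1 z.2
          rw [hk]; exact Real.rpow_nonneg (hf0 z) _)]
      apply lintegral_congr
      intro z
      rw [hen p hp0 z, hk]
    have hEn0 : 0 ≤ En p ρ ρ := by
      rw [hEn]
      apply integral_nonneg
      intro z
      show 0 ≤ kr p z.1 z.2
      rw [hk]
      exact Real.rpow_nonneg (hf0 z) _
    have hL := eLpNorm'_le_eLpNorm'_of_exponent_le hp0 hpq.le (ρ.prod ρ)
      hfm.aestronglyMeasurable (f := f)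
    rw [eLpNorm'_eq_lintegral_enorm, eLpNorm'_eq_lintegral_enorm, hp'] at hL
    have h2 : ENNReal.ofReal (En p ρ ρ) ^ (1 / p) ≤ (Iq q ρ) ^ (1 / q) :=
      hL.trans (ENNReal.rpow_le_rpow hq' (by positivity))
    have h3 := ENNReal.toReal_mono (ENNReal.rpow_ne_top_of_nonneg (by positivity) hIt) h2
    rw [← ENNReal.toReal_rpow, ← ENNReal.toReal_rpow, ENNReal.toReal_ofReal hEn0] at h3
    exact h3

end Pool.Agent.Helper348.RC
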